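import Pool.Agent.W845.DH.Stm

/-!
# DH-K23: dense relations contain two vertices with three common out-neighbours
-/

set_option autoImplicit false
open scoped Classical
open scoped BigOperators

namespace Pool.Agent.W395.DH

open Finset Pool.Agent.W845.DH

theorem k23 : S_K23 := by
  intro c hc
  refine ⟨⌈3 / c ^ 2⌉₊ + 1, ?_⟩
  intro V _ E hN hE
  by_contra hcon
  push Not at hcon
  set n : ℝ := (Fintype.card V : ℝ) with hn
  have hn1 : 3 / c ^ 2 + 1 ≤ n := by
    have h1 : ((⌈3 / c ^ 2⌉₊ + 1 : ℕ) : ℝ) ≤ n := by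
      rw [hn]; exact_mod_cast hN
    have h2 := Nat.le_ceil (3 / c ^ 2)
    push_cast at h1
    linarith
  have hc2 : 0 < c ^ 2 := by positivity
  have h3c : 0 < 3 / c ^ 2 := by positivity
  have hn0 : 0 < n := by linarith
  have hcod : ∀ u u' : V, u ≠ u' →
      (univ.filter (fun w => (u, w) ∈ E ∧ (u', w) ∈ E)).card ≤ 2 := by
    intro u u' huu
    by_contra h
    push Not at h
    obtain ⟨x, hx, y, hy, z, hz, hxy, hxz, hyz⟩ := two_lt_card.1 h
    rw [mem_filter] at hx hy hz
    obtain ⟨i, hi⟩ := hcon u u' ![x, y, z] huu (by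
      intro i j hij
      fin_cases i <;> fin_cases j <;> simp_all)
    fin_cases i
    · exact hi hx.2.1 hx.2.2
    · exact hi hy.2.1 hy.2.2
    · exact hi hz.2.1 hz.2.2
  set a : V → V → ℝ := fun u w => if (u, w) ∈ E then 1 else 0 with ha
  have hsum : ∑ w, ∑ u, a u w = (E.card : ℝ) := by
    have h1 : ∑ p : V × V, (if p ∈ E then (1 : ℝ) else 0) = (E.card : ℝ) := by
      rw [sum_boole]
      simp
    rw [← h1, Fintype.sum_prod_type_right]
  have hCS := sq_sum_le_card_mul_sum_sq (s := (univ : Finset V)) (f := fun w => ∑ u, a u w)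
  rw [hsum, card_univ, ← hn] at hCS
  have hin : ∀ u u' : V, ∑ w, a u w * a u' w ≤ (if u = u' then n else 0) + 2 := by
    intro u u'
    have h1 : ∑ w, a u w * a u' w =
        ((univ.filter (fun w => (u, w) ∈ E ∧ (u', w) ∈ E)).card : ℝ) := by
      rw [← sum_boole]
      refine sum_congr rfl fun w _ => ?_
      simp only [ha]
      by_cases h : (u, w) ∈ E <;> by_cases h' : (u', w) ∈ E <;> simp [h, h']
    rw [h1]
    by_cases h : u = u'
    · rw [if_pos h]
      have h2 : (univ.filter (fun w => (u, w) ∈ E ∧ (u', w) ∈ E)).card ≤ Fintype.card V := by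
        rw [← card_univ]
        exact card_filter_le _ _
      have h3 : ((univ.filter (fun w => (u, w) ∈ E ∧ (u', w) ∈ E)).card : ℝ) ≤ n := by
        rw [hn]; exact_mod_cast h2
      linarith
    · rw [if_neg h, zero_add]
      exact_mod_cast hcod u u' h
  have hsq : ∑ w, (∑ u, a u w) ^ 2 ≤ 3 * n ^ 2 := by
    have h1 : ∑ w, (∑ u, a u w) ^ 2 = ∑ u, ∑ u', ∑ w, a u w * a u' w := by
      have h2 : ∀ w, (∑ u, a u w) ^ 2 = ∑ u, ∑ u', a u w * a u' w := by
        intro w
        rw [sq, sum_mul_sum]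
      simp only [h2]
      rw [sum_comm]
      refine sum_congr rfl fun u _ => ?_
      rw [sum_comm]
    rw [h1]
    calc ∑ u, ∑ u', ∑ w, a u w * a u' w
        ≤ ∑ u : V, ∑ u' : V, ((if u = u' then n else 0) + 2) :=
          sum_le_sum fun u _ => sum_le_sum fun u' _ => hin u u'
      _ = ∑ u : V, (n + n * 2) := by
          refine sum_congr rfl fun u _ => ?_
          rw [sum_add_distrib, sum_ite_eq, if_pos (mem_univ u), sum_const, card_univ,
            nsmul_eq_mul, ← hn]
      _ = 3 * n ^ 2 := by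
          rw [sum_const, card_univ, nsmul_eq_mul, ← hn]
          ring
  have h1 : (c * n ^ 2) ^ 2 ≤ (E.card : ℝ) ^ 2 := pow_le_pow_left₀ (by positivity) hE 2
  have h2 : (c * n ^ 2) ^ 2 ≤ n * (3 * n ^ 2) :=
    (h1.trans hCS).trans (mul_le_mul_of_nonneg_left hsq hn0.le)
  have h3 : c ^ 2 * n ≤ 3 := by
    have hn3 : 0 < n ^ 3 := by positivity
    refine le_of_mul_le_mul_right ?_ hn3
    calc c ^ 2 * n * n ^ 3 = (c * n ^ 2) ^ 2 := by ring
      _ ≤ n * (3 * n ^ 2) := h2
      _ = 3 * n ^ 3 := by ring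
  have h4 : c ^ 2 * (3 / c ^ 2 + 1) ≤ c ^ 2 * n := mul_le_mul_of_nonneg_left hn1 hc2.le
  have h5 : c ^ 2 * (3 / c ^ 2 + 1) = 3 + c ^ 2 := by
    field_simp
  linarith

end Pool.Agent.W395.DH
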